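import Pool.Agent.Helper70.EQ.Goals

/-!
# Project EQ, packet N1
-/

namespace Pool.Agent.Helper17.EQ.N1

open Pool.Agent.Helper70.EQ

lemma s1 (M : ℕ) (hM : M ≠ 0) : sj 1 M = 1 := by
  simp [sj, Finset.sum_range_succ, hM]

lemma t1 (M : ℕ) (hM : M ≠ 0) : tj 1 M = 1 := by
  simp [tj, Finset.sum_range_succ, hM]

lemma s2 (M : ℕ) (hM : M ≠ 0) : sj 2 M = 2 ^ M - 2 := by
  simp [sj, Finset.sum_range_succ, hM]
  ring

lemma t2 (M : ℕ) (hM : M ≠ 0) : tj 2 M = 2 ^ M + 2 := by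
  simp [tj, Finset.sum_range_succ, hM]
  ring

theorem t : Pool.Agent.Helper70.EQ.G_N1 := by
  intro n r c hn h1 h2 hc
  obtain ⟨m, rfl⟩ : ∃ m, n = m + 3 := ⟨n - 3, by omega⟩
  obtain rfl | rfl : r = 1 ∨ r = 2 := by omega
  · unfold Pool.Agent.Helper70.EQ.Num
    rw [s1 _ (by omega), s1 _ (by omega), t1 _ (by omega), t1 _ (by omega)]
    push_cast at hc ⊢
    have hm : (0 : ℝ) ≤ m := Nat.cast_nonneg m
    set a : ℝ := (m : ℝ) with ha
    have hb : 0 < (a + 3) * (a + 1) := by positivity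
    have h3 : 4 * (a + 3 + 1) ^ 2 * ((a + 3) * (a + 1)) ≤ 4 * c * ((a + 3) * (a + 1)) := by
      have := mul_le_mul_of_nonneg_right hc hb.le
      linarith
    have h4 : (a + 3 + 1 - 1) ^ 4 < 4 * (a + 3 + 1) ^ 2 * ((a + 3) * (a + 1)) := by
      have e : 4 * (a + 3 + 1) ^ 2 * ((a + 3) * (a + 1)) - (a + 3 + 1 - 1) ^ 4 =
          (a + 3) * (3 * a ^ 3 + 27 * a ^ 2 + 69 * a + 37) := by ring
      have : 0 < (a + 3) * (3 * a ^ 3 + 27 * a ^ 2 + 69 * a + 37) := by positivity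
      linarith
    calc (a + 3 + 1 - 1) ^ 4 * 1 < 4 * (a + 3 + 1) ^ 2 * ((a + 3) * (a + 1)) := by
          rw [mul_one]
          exact h4
      _ ≤ 4 * c * ((a + 3) * (a + 1)) := h3
      _ = _ := by ring
  · unfold Pool.Agent.Helper70.EQ.Num
    rw [s2 _ (by omega), s2 _ (by omega), t2 _ (by omega), t2 _ (by omega)]
    have e1 : m + 3 + 2 - 2 = m + 3 := by omega
    have e2 : m + 3 + 2 - 1 = m + 4 := by omega
    have e3 : m + 3 + 2 = m + 5 := by omega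
    rw [e1, e2, e3]
    push_cast at hc ⊢
    have hm : (0 : ℝ) ≤ m := Nat.cast_nonneg m
    have hX : (16 : ℝ) ≤ 2 ^ (m + 4) := by
      have h5 : (2 : ℝ) ^ 4 ≤ 2 ^ (m + 4) := pow_le_pow_right₀ (by norm_num) (by omega)
      linarith
    set a : ℝ := (m : ℝ) with ha
    set X : ℝ := 2 ^ (m + 4) with hXd
    have p3 : (2 : ℝ) ^ (m + 3) = X / 2 := by
      rw [hXd, pow_succ (2 : ℝ) (m + 3)]
      ring
    have p5 : (2 : ℝ) ^ (m + 5) = 2 * X := by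
      rw [hXd, pow_succ (2 : ℝ) (m + 4)]
      ring
    rw [p3, p5]
    have hB : 0 < X * (a + 2) ^ 2 - 2 * (a + 5) ^ 2 + 4 * (a + 5) - 6 := by
      have h6 : 16 * (a + 2) ^ 2 ≤ X * (a + 2) ^ 2 := mul_le_mul_of_nonneg_right hX (by positivity)
      nlinarith
    have h3 : 4 * (a + 5) ^ 2 * (X * (a + 2) ^ 2 - 2 * (a + 5) ^ 2 + 4 * (a + 5) - 6) ≤
        4 * c * (X * (a + 2) ^ 2 - 2 * (a + 5) ^ 2 + 4 * (a + 5) - 6) := by
      have hc' : (a + 5) ^ 2 ≤ c := by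
        have e : (a + 3 + 2) ^ 2 = (a + 5) ^ 2 := by ring
        rw [e] at hc
        exact hc
      have := mul_le_mul_of_nonneg_right hc' hB.le
      linarith
    have h4 : (a + 4) ^ 4 * (X / 2 + 2) <
        4 * (a + 5) ^ 2 * (X * (a + 2) ^ 2 - 2 * (a + 5) ^ 2 + 4 * (a + 5) - 6) := by
      have hK : 0 ≤ 4 * (a + 5) ^ 2 * (a + 2) ^ 2 - (a + 4) ^ 4 / 2 := by
        have e : 4 * (a + 5) ^ 2 * (a + 2) ^ 2 - (a + 4) ^ 4 / 2 =
            7 / 2 * a ^ 4 + 48 * a ^ 3 + 228 * a ^ 2 + 432 * a + 272 := by ring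
        rw [e]
        positivity
      have h7 := mul_le_mul_of_nonneg_right hX hK
      have e : 16 * (4 * (a + 5) ^ 2 * (a + 2) ^ 2 - (a + 4) ^ 4 / 2) -
          (2 * (a + 4) ^ 4 + 4 * (a + 5) ^ 2 * (2 * (a + 5) ^ 2 - 4 * (a + 5) + 6)) =
          46 * a ^ 4 + 592 * a ^ 3 + 2472 * a ^ 2 + 3360 * a + 240 := by ring
      have h8 : 0 < 46 * a ^ 4 + 592 * a ^ 3 + 2472 * a ^ 2 + 3360 * a + 240 := by positivity
      nlinarith
    calc (a + 3 + 2 - 1) ^ 4 * (X / 2 + 2) = (a + 4) ^ 4 * (X / 2 + 2) := by ring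
      _ < 4 * (a + 5) ^ 2 * (X * (a + 2) ^ 2 - 2 * (a + 5) ^ 2 + 4 * (a + 5) - 6) := h4
      _ ≤ 4 * c * (X * (a + 2) ^ 2 - 2 * (a + 5) ^ 2 + 4 * (a + 5) - 6) := h3
      _ = _ := by ring

end Pool.Agent.Helper17.EQ.N1
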